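import Pool.Agent.Results.MP_7c8b7e_co.ConsecutiveSizes

/-!
# Fractional Berge-Furedi bound for edge sizes `k`, `k + 1` and degrees at most `k`

In a linear hypergraph all of whose edges have size `k` or `k + 1` and in which every vertex lies in
at most `k` edges, the fractional chromatic index is at most the maximum over the vertices of the
size of the union of the edges containing the vertex.
-/

set_option autoImplicit false

namespace Pool.Agent.Results.MP_553766_co.ConsecutiveSizes

open Finset Pool.Agent.W842.FKS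

/-- In a linear hypergraph the union of the edges at `v` has at least `1 + ∑ (|e| - 1)` elements. -/
lemma union_card {V E : Type} [Fintype V] [DecidableEq V] [Fintype E] (H : E → Finset V)
    (hlin : ∀ e f, e ≠ f → (H e ∩ H f).card ≤ 1) (v : V)
    (F : Finset E) (hF : ∀ e ∈ F, v ∈ H e) (hne : F.Nonempty) :
    1 + ∑ e ∈ F, (((H e).card : ℝ) - 1) ≤ ((F.biUnion H).card : ℝ) := by
  classical
  have h1 : (F.biUnion (fun e => (H e).erase v)).card = ∑ e ∈ F, ((H e).erase v).card := by
    refine Finset.card_biUnion fun e he f hf hef => ?_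
    have he : e ∈ F := he
    have hf : f ∈ F := hf
    change Disjoint ((H e).erase v) ((H f).erase v)
    rw [Finset.disjoint_left]
    intro x hx hx2
    rw [Finset.mem_erase] at hx hx2
    have h2 : ({v, x} : Finset V) ⊆ H e ∩ H f := by
      intro y hy
      rw [Finset.mem_insert, Finset.mem_singleton] at hy
      rw [Finset.mem_inter]
      rcases hy with rfl | rfl
      · exact ⟨hF e he, hF f hf⟩
      · exact ⟨hx.2, hx2.2⟩
    have h3 := Finset.card_le_card h2
    rw [Finset.card_pair (Ne.symm hx.1)] at h3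
    have := hlin e f hef
    omega
  have h4 : insert v (F.biUnion (fun e => (H e).erase v)) ⊆ F.biUnion H := by
    intro x hx
    rw [Finset.mem_insert] at hx
    rcases hx with rfl | hx
    · obtain ⟨e, he⟩ := hne
      exact Finset.mem_biUnion.2 ⟨e, he, hF e he⟩
    · obtain ⟨e, he, hxe⟩ := Finset.mem_biUnion.1 hx
      exact Finset.mem_biUnion.2 ⟨e, he, Finset.mem_of_mem_erase hxe⟩
  have h5 : v ∉ F.biUnion (fun e => (H e).erase v) := by
    intro h
    obtain ⟨e, _, hve⟩ := Finset.mem_biUnion.1 h
    exact (Finset.mem_erase.1 hve).1 rfl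
  have h6 := Finset.card_le_card h4
  rw [Finset.card_insert_of_notMem h5, h1] at h6
  have h7 : ∑ e ∈ F, (((H e).card : ℝ) - 1) = ((∑ e ∈ F, ((H e).erase v).card : ℕ) : ℝ) := by
    rw [Nat.cast_sum]
    refine Finset.sum_congr rfl fun e he => ?_
    rw [Finset.card_erase_of_mem (hF e he), Nat.cast_sub
      (Finset.card_pos.2 ⟨v, hF e he⟩)]
    simp
  rw [h7]
  have h8 : ((∑ e ∈ F, ((H e).erase v).card + 1 : ℕ) : ℝ) ≤ ((F.biUnion H).card : ℝ) := by
    exact_mod_cast h6
  push_cast at h8 ⊢
  linarith

/-- **Fractional Berge-Furedi bound, edge sizes `k` and `k + 1`, degrees at most `k`.** -/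
theorem result (V E : Type) [Fintype V] [DecidableEq V] [Fintype E] (H : E → Finset V)
    (k : ℕ) (hk : 2 ≤ k) (hs : ∀ e, (H e).card = k ∨ (H e).card = k + 1)
    (hlin : ∀ e f, e ≠ f → (H e ∩ H f).card ≤ 1)
    (hdeg : ∀ v, (Finset.univ.filter (fun e => v ∈ H e)).card ≤ k) :
    ∃ w : Finset E → ℝ, Pool.Agent.Results.MP_7c8b7e_co.ConsecutiveSizes.IsFracColouring H w ∧
      ∑ M, w M ≤ ((Finset.univ.sup (fun v : V =>
        ((Finset.univ.filter (fun e => v ∈ H e)).biUnion H).card) : ℕ) : ℝ) := by
  have hne : ∀ e, (H e).Nonempty := by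
    intro e
    rw [← Finset.card_pos]
    rcases hs e with h | h <;> omega
  obtain ⟨w, hw, hle⟩ := Pool.Agent.Results.MP_7c8b7e_co.ConsecutiveSizes.exists_colouring H hne k
    hk (fun e => Or.inr (hs e))
  refine ⟨w, hw, le_trans hle ?_⟩
  unfold Pool.Agent.Results.MP_7c8b7e_co.ConsecutiveSizes.bound
  refine Real.iSup_le (fun v => ?_) (Nat.cast_nonneg _)
  have h1 : (((Finset.univ.filter (fun e => v ∈ H e)).biUnion H).card : ℝ) ≤
      ((Finset.univ.sup (fun v : V =>
        ((Finset.univ.filter (fun e => v ∈ H e)).biUnion H).card) : ℕ) : ℝ) := by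
    exact_mod_cast Finset.le_sup (f := fun v : V =>
        ((Finset.univ.filter (fun e => v ∈ H e)).biUnion H).card) (Finset.mem_univ v)
  refine le_trans ?_ h1
  set F : Finset E := Finset.univ.filter (fun e => v ∈ H e) with hF
  refine le_trans (le_of_eq (?_ : _ =
    ∑ e ∈ F, (((H e).card : ℝ) - 1 + 1 / ((H e).card : ℝ)))) ?_
  · rw [hF, Finset.sum_filter]
    refine Finset.sum_congr rfl fun e _ => ?_
    by_cases h : v ∈ H e <;> simp [h]
  rcases F.eq_empty_or_nonempty with h0 | h0
  · rw [h0]
    simp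
  · have h3 := union_card H hlin v F (fun e he => (Finset.mem_filter.1 he).2) h0
    refine le_trans ?_ h3
    rw [Finset.sum_add_distrib]
    have hk0 : (0:ℝ) < (k:ℝ) := by
      have : 0 < k := by omega
      exact_mod_cast this
    have h4 : ∑ e ∈ F, 1 / ((H e).card : ℝ) ≤ ∑ e ∈ F, 1 / (k:ℝ) := by
      refine Finset.sum_le_sum fun e _ => ?_
      refine one_div_le_one_div_of_le hk0 ?_
      rcases hs e with h | h
      · rw [h]
      · rw [h]
        push_cast
        linarith
    rw [Finset.sum_const, nsmul_eq_mul, mul_one_div] at h4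
    have h5 : (F.card : ℝ) / k ≤ 1 := by
      rw [div_le_one hk0]
      exact_mod_cast hdeg v
    linarith

end Pool.Agent.Results.MP_553766_co.ConsecutiveSizes
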